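import Mathlib
import Pool.Agent.H24.Duc2

set_option autoImplicit false

namespace Pool.Agent.Results.MP_6169a9_an.Counter

open scoped ComplexOrder

/-- The spectral norm: the operator norm on Euclidean space. -/
noncomputable def opNorm {d : ℕ} (M : Matrix (Fin d) (Fin d) ℂ) : ℝ :=
  ‖Matrix.toEuclideanCLM (n := Fin d) (𝕜 := ℂ) M‖

/-- The ordered product A (j 0) * ... * A (j (m-1)). -/
noncomputable def word {d m n : ℕ} (A : Fin n → Matrix (Fin d) (Fin d) ℂ) (j : Fin m → Fin n) :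
    Matrix (Fin d) (Fin d) ℂ :=
  (List.ofFn fun k => A (j k)).prod

/-- With-replacement average of the norms of the length-m products. -/
noncomputable def W {d n : ℕ} (m : ℕ) (A : Fin n → Matrix (Fin d) (Fin d) ℂ) : ℝ :=
  (1 / (n : ℝ) ^ m) * ∑ j : Fin m → Fin n, opNorm (word A j)

/-- Without-replacement average of the norms of the length-m products. -/
noncomputable def D {d n : ℕ} (m : ℕ) (A : Fin n → Matrix (Fin d) (Fin d) ℂ) : ℝ :=
  ((Nat.factorial (n - m) : ℝ) / (Nat.factorial n : ℝ)) *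
    ∑ j ∈ Finset.univ.filter (fun j : Fin m → Fin n => Function.Injective j), opNorm (word A j)

theorem result :
    ∃ (d m n : ℕ) (A : Fin n → Matrix (Fin d) (Fin d) ℂ),
      1 ≤ d ∧ 1 ≤ m ∧ m ≤ n ∧ (∀ i, (A i).PosSemidef) ∧ W m A < D m A := by
  refine ⟨Fintype.card Pool.Agent.H24.Duc2.I, 9, 9,
    Pool.Agent.H24.Duc2.A (Fintype.equivFin Pool.Agent.H24.Duc2.I).symm,
    Fintype.card_pos, by norm_num, le_rfl, Pool.Agent.H24.Duc2.A_psd _, ?_⟩
  have := Pool.Agent.H24.Duc2.main (Fintype.equivFin Pool.Agent.H24.Duc2.I).symm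
  unfold W D opNorm word
  rw [Nat.cast_ofNat]
  exact this

end Pool.Agent.Results.MP_6169a9_an.Counter
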